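import Pool.Agent.H17BP.Model
import Mathlib.Analysis.Complex.JensenFormula
import Mathlib.MeasureTheory.Integral.CircleAverage
import Mathlib.Analysis.Normed.Module.HahnBanach

/-!
# Lifts bounded on discs and the characteristic

`F` is a lift (zeros allowed) of a curve on the disc of radius `R`, `‖F‖ ≤ 1`, `F 0 ≠ 0`; `F₀` is a lift without zeros.  Then the
mean value of `log ‖F₀‖` over the circle of radius `r < R` is at most `log ‖F₀ 0‖ - log ‖F 0‖` (Jensen's formula).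
-/

set_option autoImplicit false

namespace Pool.Agent.H13.OT

open Filter Topology Metric Real
open Pool.Agent.H17BP

variable {V : Type} [NormedAddCommGroup V] [NormedSpace ℂ V]

/-- the mean value of `log |φ|` over a circle is at least the value in the centre -/
theorem log_le_average {φ : ℂ → ℂ} {r : ℝ} (hr : 0 < r) (h : AnalyticOnNhd ℂ φ (closedBall 0 r)) (h0 : φ 0 ≠ 0) :
    Real.log ‖φ 0‖ ≤ circleAverage (fun z => Real.log ‖φ z‖) 0 r := by
  have hrr : |r| = r := abs_of_pos hr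
  have h1 : AnalyticOnNhd ℂ φ (closedBall 0 |r|) := by rwa [hrr]
  have h2 := h1.circleAverage_log_norm hr.ne' h0
  rw [h2]
  have h3 : 0 ≤ ∑ᶠ u, MeromorphicOn.divisor φ (closedBall 0 |r|) u * Real.log (r * ‖0 - u‖⁻¹) := by
    refine finsum_nonneg fun u => ?_
    by_cases hu : u ∈ closedBall (0 : ℂ) |r|
    · have h4 : (0 : ℤ) ≤ MeromorphicOn.divisor φ (closedBall 0 |r|) u :=
        (MeromorphicOn.AnalyticOnNhd.divisor_nonneg h1) u
      have h5 : (0 : ℝ) ≤ MeromorphicOn.divisor φ (closedBall 0 |r|) u := by exact_mod_cast h4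
      refine mul_nonneg h5 ?_
      by_cases hu0 : u = 0
      · simp [hu0]
      · apply Real.log_nonneg
        have h6 : 0 < ‖0 - u‖ := by simpa using hu0
        rw [← div_eq_mul_inv, le_div_iff₀ h6, one_mul]
        rw [mem_closedBall, dist_zero_right, hrr] at hu
        simpa using hu
    · have : MeromorphicOn.divisor φ (closedBall 0 |r|) u = 0 := by
        exact Function.locallyFinsuppWithin.apply_eq_zero_of_notMem _ hu
      rw [this]
      simp
  linarith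

theorem average_le {f F F₀ : ℂ → V} {ρ r : ℝ} (hr : 0 < r) (hrρ : r < ρ) (hF : DifferentiableOn ℂ F (ball 0 ρ))
    (hF1 : ∀ z ∈ ball (0 : ℂ) ρ, ‖F z‖ ≤ 1) (h0 : F 0 ≠ 0) (hFf : ∀ z ∈ ball (0 : ℂ) ρ, F z = 0 ∨ Pr (f z) (F z))
    (hF₀ : DifferentiableOn ℂ F₀ (ball 0 ρ)) (hF₀f : ∀ z ∈ ball (0 : ℂ) ρ, F₀ z ≠ 0 ∧ Pr (f z) (F₀ z)) :
    circleAverage (fun z => Real.log ‖F₀ z‖) 0 r ≤ Real.log ‖F₀ 0‖ - Real.log ‖F 0‖ := by
  classical
  have hex : ∀ z : ℂ, ∃ a : ℂ, z ∈ ball (0 : ℂ) ρ → F z = a • F₀ z := by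
    intro z
    by_cases hz : z ∈ ball (0 : ℂ) ρ
    · rcases hFf z hz with h | ⟨c, hc, h⟩
      · exact ⟨0, fun _ => by rw [h, zero_smul]⟩
      · obtain ⟨-, c', hc', h'⟩ := hF₀f z hz
        refine ⟨c⁻¹ * c', fun _ => ?_⟩
        rw [mul_smul, ← h', h, smul_smul, inv_mul_cancel₀ hc, one_smul]
    · exact ⟨0, fun h => absurd h hz⟩
  choose φ heq using hex
  have hloc' : ∀ z₀ ∈ ball (0 : ℂ) ρ, AnalyticAt ℂ φ z₀ := by
    intro z₀ hz₀
    have hne : F₀ z₀ ≠ 0 := (hF₀f z₀ hz₀).1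
    obtain ⟨ℓ, -, hℓ⟩ := exists_dual_vector ℂ (F₀ z₀) (norm_ne_zero_iff.2 hne)
    have hℓ0 : ℓ (F₀ z₀) ≠ 0 := by
      rw [hℓ]
      exact Complex.ofReal_ne_zero.2 (norm_ne_zero_iff.2 hne)
    have hnhds : ball (0 : ℂ) ρ ∈ 𝓝 z₀ := isOpen_ball.mem_nhds hz₀
    have ha : AnalyticAt ℂ (fun z => ℓ (F z)) z₀ := by
      have h1 : DifferentiableOn ℂ (fun z => ℓ (F z)) (ball 0 ρ) := fun z hz =>
        (ℓ.differentiableAt.comp_differentiableWithinAt z (hF z hz))
      exact h1.analyticAt hnhds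
    have ha₀ : AnalyticAt ℂ (fun z => ℓ (F₀ z)) z₀ := by
      have h1 : DifferentiableOn ℂ (fun z => ℓ (F₀ z)) (ball 0 ρ) := fun z hz =>
        (ℓ.differentiableAt.comp_differentiableWithinAt z (hF₀ z hz))
      exact h1.analyticAt hnhds
    refine (ha.div ha₀ hℓ0).congr ?_
    filter_upwards [hnhds, ha₀.continuousAt.eventually_ne hℓ0] with z hz h1
    simp only [Pi.div_apply]
    rw [heq z hz, map_smul, smul_eq_mul, mul_div_cancel_right₀ _ h1]
  have hnorm : ∀ z ∈ ball (0 : ℂ) ρ, ‖φ z‖ * ‖F₀ z‖ ≤ 1 := by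
    intro z hz
    rw [← norm_smul, ← heq z hz]
    exact hF1 z hz
  have h0m : (0 : ℂ) ∈ ball (0 : ℂ) ρ := mem_ball_self (hr.trans hrρ)
  have hφ0 : φ 0 ≠ 0 := by
    intro h
    apply h0
    rw [heq 0 h0m, h, zero_smul]
  have hsub : closedBall (0 : ℂ) r ⊆ ball 0 ρ := closedBall_subset_ball hrρ
  have hsph : sphere (0 : ℂ) |r| ⊆ ball 0 ρ := by
    rw [abs_of_pos hr]
    exact sphere_subset_closedBall.trans hsub
  have hφan : AnalyticOnNhd ℂ φ (closedBall 0 r) := fun z hz => hloc' z (hsub hz)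
  have hφsp : AnalyticOnNhd ℂ φ (sphere 0 |r|) := fun z hz => hloc' z (hsph hz)
  have hJ := log_le_average hr hφan hφ0
  -- the zeros of `φ` on the circle
  set f₁ : ℂ → ℝ := fun z => if φ z = 0 then -Real.log ‖F₀ z‖ else Real.log ‖φ z‖ with hf₁
  have hcod : (fun z => Real.log ‖φ z‖) =ᶠ[codiscreteWithin (sphere (0 : ℂ) |r|)] f₁ := by
    have h1 : ∀ᶠ z in codiscreteWithin (closedBall (0 : ℂ) r), φ z ≠ 0 := by
      have h2 : φ ⁻¹' {0}ᶜ ∈ codiscreteWithin (closedBall (0 : ℂ) r) :=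
        hφan.preimage_zero_mem_codiscreteWithin (x := 0) hφ0 (mem_closedBall_self hr.le)
          (isConnected_closedBall hr.le)
      exact h2
    have h3 : ∀ᶠ z in codiscreteWithin (sphere (0 : ℂ) |r|), φ z ≠ 0 := by
      refine (codiscreteWithin_mono ?_) h1
      rw [abs_of_pos hr]
      exact sphere_subset_closedBall
    filter_upwards [h3] with z hz
    rw [hf₁]
    simp [hz]
  have hint : CircleIntegrable (fun z => Real.log ‖φ z‖) 0 r := hφsp.meromorphicOn.circleIntegrable_log_norm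
  have hint₁ : CircleIntegrable f₁ 0 r := hint.congr_codiscreteWithin hcod
  have havg : circleAverage (fun z => Real.log ‖φ z‖) 0 r = circleAverage f₁ 0 r :=
    circleAverage_congr_codiscreteWithin hcod hr.ne'
  have hHint : CircleIntegrable (fun z => Real.log ‖F₀ z‖) 0 r := by
    refine ContinuousOn.circleIntegrable' ?_
    exact ((hF₀.continuousOn.mono hsph).norm).log fun z hz => norm_ne_zero_iff.mpr (hF₀f z (hsph hz)).1
  have hle : circleAverage (fun z => Real.log ‖F₀ z‖) 0 r ≤ circleAverage (fun z => -f₁ z) 0 r := by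
    refine circleAverage_mono hHint hint₁.neg fun z hz => ?_
    by_cases h : φ z = 0
    · simp [hf₁, h]
    · have h1 : 0 < ‖φ z‖ := norm_pos_iff.mpr h
      have h2 : 0 < ‖F₀ z‖ := norm_pos_iff.mpr (hF₀f z (hsph hz)).1
      have h3 := hnorm z (hsph hz)
      have h4 : Real.log (‖φ z‖ * ‖F₀ z‖) ≤ 0 := Real.log_nonpos (by positivity) h3
      rw [Real.log_mul h1.ne' h2.ne'] at h4
      simp only [hf₁, h, if_false]
      linarith
  have hneg : circleAverage (fun z => -f₁ z) 0 r = -circleAverage f₁ 0 r := by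
    have h := circleAverage_fun_smul (a := (-1 : ℝ)) (f := f₁) (c := 0) (R := r)
    simpa using h
  have h5 : Real.log ‖F 0‖ = Real.log ‖φ 0‖ + Real.log ‖F₀ 0‖ := by
    rw [heq 0 h0m, norm_smul, Real.log_mul (norm_ne_zero_iff.mpr hφ0) (norm_ne_zero_iff.mpr (hF₀f 0 h0m).1)]
  rw [hneg, ← havg] at hle
  linarith

end Pool.Agent.H13.OT
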